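import Mathlib
import Pool.Agent.N901.RemondDefs
import Pool.Agent.N901.RemondMain

namespace Pool.Agent.Results.MP_187c26_nt.NotLehmer

open Pool.Agent.N901.Remond

/-- Over every number field `K` there is a subgroup `Γ` of rank one of `G_m^2(K^al)` which is not a
Lehmer group: `ω_{K(Γ)}(V) μ_ess(V)` takes arbitrarily small values on `Γ`-transverse subvarieties
`V`. (Here `G = G_m^2` and `L = O(1,1)` on `(P^1)^2`.) -/
theorem result (K : Type*) [Field K] [NumberField K] :
    ∃ Γ : Subgroup (Pts K 2), rank Γ = 1 ∧ ¬ IsLehmerGroup Γ :=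
  ⟨exGroup K, rank_exGroup K, not_lehmer K⟩

end Pool.Agent.Results.MP_187c26_nt.NotLehmer
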